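import Pool.Agent.H.MP_462f25_al.D
import Pool.Agent.H.MP_1d7d98_al.A

set_option autoImplicit false

namespace Pool.Agent.H.MP_462f25_al

open MP_1d7d98_al Filter

variable {G : Type} [Group G] {S : Set G} {D : ℕ}

def Four (S : Set G) (D : ℕ) : Prop := ∀ x y z w : G,
  wd S x y + wd S z w ≤ max (wd S x z + wd S y w) (wd S x w + wd S y z) + D

def Asy (β γ : Ray S) : Prop := ∃ C : ℕ, ∀ n, wd S (β.1 n) (γ.1 n) ≤ C

lemma thin (hD : Four S D) {o a a' b b' : G} {j s t : ℕ} (h1 : wd S o a = j) (h2 : wd S o b = j)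
    (h3 : wd S o a' = j + s) (h4 : wd S a a' = s) (h5 : wd S o b' = j + t) (h6 : wd S b b' = t)
    (h7 : wd S a' b' ≤ s + t) : wd S a b ≤ 2 * D := by
  have e1 := hD a b' o a'
  have e2 := hD a b o b'
  rw [wd_comm a o, wd_comm b' a', wd_comm b' o] at e1
  rw [wd_comm a o, wd_comm b o] at e2
  omega

lemma Ray.le (γ : Ray S) {i j : ℕ} (h : i ≤ j) : wd S (γ.1 i) (γ.1 j) + i = j := by
  rw [γ.2, Nat.dist]; omega

lemma thin_ray (hD : Four S D) (α β : Ray S) (h : α.1 0 = β.1 0) (j s : ℕ)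
    (h1 : wd S (α.1 (j + s)) (β.1 (j + s)) ≤ 2 * s) : wd S (α.1 j) (β.1 j) ≤ 2 * D := by
  have a1 := α.le (Nat.zero_le j)
  have a2 := α.le (Nat.zero_le (j + s))
  have a3 := α.le (Nat.le_add_right j s)
  have b1 := β.le (Nat.zero_le j)
  have b2 := β.le (Nat.zero_le (j + s))
  have b3 := β.le (Nat.le_add_right j s)
  rw [← h] at b1 b2
  exact thin hD (s := s) (t := s) a1 b1 a2 (by omega) b2 (by omega) (by omega)

lemma chain (hD : Four S D) (v : ℕ → G) (m : ℕ) (hm : 3 * D < m)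
    (h1 : ∀ k, wd S (v k) (v (k + 1)) = m) (h2 : ∀ k, 2 * m ≤ wd S (v k) (v (k + 2)) + 2 * D)
    (k : ℕ) : wd S (v 0) (v k) + m ≤ wd S (v 0) (v (k + 1)) + 3 * D := by
  induction k with
  | zero => rw [wd_self, h1]; omega
  | succ k ih =>
    have e := hD (v 0) (v (k + 1)) (v k) (v (k + 2))
    have := h2 k
    rw [h1 (k + 1), wd_comm (v (k + 1)) (v k), h1 k] at e
    show _ ≤ wd S (v 0) (v (k + 2)) + _
    omega

variable (hS : Subgroup.closure S = ⊤)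
include hS

lemma asy_eqv : Equivalence (Asy (S := S)) where
  refl β := ⟨0, fun n => (wd_self _).le⟩
  symm := fun ⟨C, h⟩ => ⟨C, fun n => wd_comm (S := S) _ _ ▸ h n⟩
  trans := fun ⟨C, h⟩ ⟨C', h'⟩ => ⟨C + C', fun n =>
    (wd_tri hS _ _ _).trans (add_le_add (h n) (h' n))⟩

lemma mk_eq {β γ : Ray S} : (Quot.mk _ β : GB S) = Quot.mk _ γ ↔ Asy β γ :=
  Quot.eq.trans (asy_eqv hS).eqvGen_iff

lemma pass (hD : Four S D) (μ τ : Ray S) (h : Asy μ τ) (w : G) (m : ℕ) (hm : 3 * D < m)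
    (h1 : wd S (τ.1 m) w ≤ 2 * D) (h2 : wd S (μ.1 0) (τ.1 0) + m ≤ wd S (μ.1 0) w + 3 * D) :
    wd S (μ.1 (wd S (μ.1 0) (τ.1 0))) (τ.1 0) ≤ 7 * D := by
  obtain ⟨B, hB⟩ := h
  set j := wd S (μ.1 0) (τ.1 0) with hj
  set n := m + j + B + 6 * D with hn
  have e0 := wd_tri hS (μ.1 0) (τ.1 m) w
  have e1 := hD (μ.1 0) (τ.1 m) (τ.1 0) (τ.1 n)
  have e2 := hD (μ.1 j) (τ.1 n) (μ.1 0) (μ.1 n)
  have e3 := hD (μ.1 j) (τ.1 0) (μ.1 0) (τ.1 n)
  have a1 := τ.le (Nat.zero_le n)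
  have a2 := τ.le (Nat.zero_le m)
  have a3 := τ.le (show m ≤ n by omega)
  have b1 := μ.le (Nat.zero_le n)
  have b2 := μ.le (Nat.zero_le j)
  have b3 := μ.le (show j ≤ n by omega)
  have b4 := hB n
  rw [wd_comm (τ.1 m) (τ.1 0)] at e1
  rw [wd_comm (μ.1 j) (μ.1 0), wd_comm (τ.1 n) (μ.1 n), wd_comm (τ.1 n) (μ.1 0)] at e2
  rw [wd_comm (μ.1 j) (μ.1 0), wd_comm (τ.1 0) (μ.1 0)] at e3
  omega

lemma seg (x y : G) : ∃ g : ℕ → G, g 0 = x ∧ g (wd S x y) = y ∧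
    ∀ i ≤ wd S x y, ∀ j ≤ wd S x y, wd S (g i) (g j) = Nat.dist i j := by
  refine wd_ind hS y (fun x n => ∃ g : ℕ → G, g 0 = x ∧ g n = y ∧
    ∀ i ≤ n, ∀ j ≤ n, wd S (g i) (g j) = Nat.dist i j) ⟨fun _ => y, rfl, rfl, ?_⟩ ?_ x
  · intro i hi j hj
    simp [wd_self, Nat.le_zero.1 hi, Nat.le_zero.1 hj]
  · rintro x z n h1 - h3 ⟨g, g0, g1, g2⟩
    have key : ∀ i ≤ n, wd S x (g i) = i + 1 := by
      intro i hi
      have e1 := wd_tri hS x z (g i)
      have e2 := wd_tri hS x (g i) y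
      have e3 := g2 0 (Nat.zero_le _) i hi
      have e4 := g2 i hi n le_rfl
      have e5 := wd_st h1
      rw [g0, Nat.dist] at e3
      rw [g1, Nat.dist] at e4
      omega
    refine ⟨fun i => Nat.casesOn i x g, rfl, g1, ?_⟩
    rintro (_ | i) hi (_ | j) hj
    · simp [wd_self]
    · simpa [Nat.dist] using key j (by omega)
    · rw [wd_comm]; simpa [Nat.dist] using key i (by omega)
    · rw [Nat.dist_add_add_right]; exact g2 i (by omega) j (by omega)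

def tr (g : G) (γ : Ray S) (m : ℕ) : Ray S :=
  ⟨fun n => g * γ.1 (m + n), fun i j => by rw [wd_mul hS, γ.2, Nat.dist_add_add_left]⟩

lemma tr_asy (g : G) (γ : Ray S) (m : ℕ) : Asy (tr hS g γ 0) (tr hS g γ m) :=
  ⟨m, fun n => by
    simp only [tr]
    rw [wd_mul hS, γ.2, Nat.dist]; omega⟩

variable (hF : S.Finite)
include hF

lemma ball (n : ℕ) : {g | wd S 1 g ≤ n}.Finite := by
  induction n with
  | zero => exact (Set.finite_singleton 1).subset fun g hg => (wd_zero hS (Nat.le_zero.1 hg)).symm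
  | succ n ih =>
    refine (ih.union (ih.image2 (· * ·) (hF.union hF.inv))).subset fun g hg => ?_
    rcases Nat.lt_or_ge (wd S 1 g) (n + 1) with h | h
    · exact Or.inl (Nat.lt_succ_iff.1 h)
    · obtain ⟨z, h1, h2⟩ := wd_step hS (x := g) (y := 1) (n := n)
        (by rw [wd_comm]; exact le_antisymm hg h)
      refine Or.inr ⟨z, by rw [Set.mem_ofPred_eq, wd_comm]; exact h2.le, z⁻¹ * g, ?_, by simp⟩
      rcases h1 with h1 | h1
      · right; simpa using h1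
      · exact Or.inl h1

lemma ulim (U : Ultrafilter ℕ) (f : ℕ → ℕ → G) (h : ∀ j, ∀ᶠ n in U, wd S 1 (f n j) ≤ j) :
    ∃ γ : ℕ → G, ∀ j, ∀ᶠ n in U, f n j = γ j := by
  have : ∀ j, ∃ g, ∀ᶠ n in U, f n j = g := by
    intro j
    obtain ⟨g, -, hg⟩ := (U.map fun n => f n j).eq_pure_of_finite_mem (ball hS hF j) (h j)
    refine ⟨g, ?_⟩
    have : {g} ∈ U.map fun n => f n j := by rw [hg]; simp
    exact this
  choose γ hγ using this
  exact ⟨γ, hγ⟩

omit hS hF in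
lemma ge_U (j : ℕ) : ∀ᶠ n in (hyperfilter ℕ : Filter ℕ), j ≤ n :=
  Nat.hyperfilter_le_atTop (eventually_ge_atTop j)

lemma based (hD : Four S D) (β : Ray S) : ∃ α : Ray S, α.1 0 = 1 ∧ Asy α β := by
  choose g g0 g1 g2 using fun n => seg hS 1 (β.1 n)
  set B := wd S 1 (β.1 0) with hB
  have l1 : ∀ n, n ≤ wd S 1 (β.1 n) + B ∧ wd S 1 (β.1 n) ≤ n + B := fun n => by
    have e1 := wd_tri hS (β.1 0) 1 (β.1 n)
    have e2 := wd_tri hS 1 (β.1 0) (β.1 n)
    have e3 := β.le (Nat.zero_le n)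
    rw [wd_comm (β.1 0) 1] at e1
    omega
  have l2 : ∀ n j, j ≤ wd S 1 (β.1 n) → wd S 1 (g n j) = j := fun n j h => by
    have := g2 n 0 (Nat.zero_le _) j h
    rwa [g0, Nat.dist_zero_left] at this
  obtain ⟨α, hα⟩ := ulim hS hF (hyperfilter ℕ) g fun j => (ge_U (j + B)).mono fun n hn =>
    (l2 n j (by have := l1 n; omega)).le
  refine ⟨⟨α, fun i j => ?_⟩, ?_, 3 * B + 2 * D, fun j => ?_⟩
  · obtain ⟨n, h1, h2, h3⟩ := ((hα i).and ((hα j).and (ge_U (i + j + B)))).exists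
    have := l1 n
    rw [← h1, ← h2, g2 n i (by omega) j (by omega)]
  · obtain ⟨n, h⟩ := (hα 0).exists
    exact h.symm.trans (g0 n)
  · obtain ⟨n, h1, h2⟩ := ((hα j).and (ge_U (j + B))).exists
    have e0 := l1 n
    have e1 := l2 n j (by omega)
    show wd S (α j) _ ≤ _
    rw [← h1]
    rcases Nat.lt_or_ge j B with h | h
    · have e2 := wd_tri hS (g n j) 1 (β.1 j)
      have e3 := l1 j
      rw [wd_comm (g n j) 1] at e2
      omega
    · set l := wd S 1 (β.1 n) with hl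
      have e2 := g2 n l le_rfl j (by omega)
      rw [g1, Nat.dist] at e2
      have e3 := β.le (show n + j - l ≤ n by omega)
      have e4 := β.le (Nat.zero_le n)
      have e5 := β.le (Nat.zero_le (n + j - l))
      have e6 := thin hD (o := β.1 n) (a := g n j) (a' := 1) (b := β.1 (n + j - l)) (b' := β.1 0)
        (j := l - j) (s := j) (t := n + j - l) (by omega) (by rw [wd_comm]; omega)
        (by rw [wd_comm]; omega) (by rw [wd_comm]; omega) (by rw [wd_comm]; omega)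
        (by rw [wd_comm]; omega) (by omega)
      have e7 := wd_tri hS (g n j) (β.1 (n + j - l)) (β.1 j)
      rw [β.2, Nat.dist] at e7
      omega

lemma two (ρ : Ray S) : ∃ σ τ : Ray S, σ.1 0 = 1 ∧ τ.1 0 = 1 ∧
    ∀ n, wd S (σ.1 n) (τ.1 n) = 2 * n := by
  have e : ∀ m i, wd S 1 ((ρ.1 m)⁻¹ * ρ.1 i) = Nat.dist m i := fun m i => by
    rw [← wd_mul hS (ρ.1 m), mul_one, mul_inv_cancel_left, ρ.2]
  obtain ⟨σ, hσ⟩ := ulim hS hF (hyperfilter ℕ) (fun m n => (ρ.1 m)⁻¹ * ρ.1 (m - n)) fun j =>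
    Eventually.of_forall fun m => by rw [e, Nat.dist]; omega
  obtain ⟨τ, hτ⟩ := ulim hS hF (hyperfilter ℕ) (fun m n => (ρ.1 m)⁻¹ * ρ.1 (m + n)) fun j =>
    Eventually.of_forall fun m => by rw [e, Nat.dist]; omega
  refine ⟨⟨σ, fun i j => ?_⟩, ⟨τ, fun i j => ?_⟩, ?_, ?_, fun n => ?_⟩
  · obtain ⟨n, h1, h2, h3⟩ := ((hσ i).and ((hσ j).and (ge_U (i + j)))).exists
    rw [← h1, ← h2, wd_mul hS, ρ.2, Nat.dist, Nat.dist]; omega
  · obtain ⟨n, h1, h2⟩ := ((hτ i).and (hτ j)).exists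
    rw [← h1, ← h2, wd_mul hS, ρ.2, Nat.dist, Nat.dist]; omega
  · obtain ⟨n, h⟩ := (hσ 0).exists
    exact h.symm.trans (by simp)
  · obtain ⟨n, h⟩ := (hτ 0).exists
    exact h.symm.trans (by simp)
  · obtain ⟨m, h1, h2, h3⟩ := ((hσ n).and ((hτ n).and (ge_U n))).exists
    show wd S (σ n) (τ n) = _
    rw [← h1, ← h2, wd_mul hS, ρ.2, Nat.dist]; omega

lemma rlim (α : ℕ → Ray S) (h : ∀ n, (α n).1 0 = 1) : ∃ γ : Ray S,
    (∀ j, ∀ᶠ n in (hyperfilter ℕ : Filter ℕ), (α n).1 j = γ.1 j) ∧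
    Tendsto α (hyperfilter ℕ) (nhds γ) := by
  obtain ⟨γ, hγ⟩ := ulim hS hF (hyperfilter ℕ) (fun n => (α n).1) fun j =>
    Eventually.of_forall fun n => by
      have := (α n).le (Nat.zero_le j)
      rw [h] at this; omega
  refine ⟨⟨γ, fun i j => ?_⟩, hγ, ?_⟩
  · obtain ⟨n, h1, h2⟩ := ((hγ i).and (hγ j)).exists
    rw [← h1, ← h2, (α n).2]
  · letI : TopologicalSpace G := ⊥
    rw [nhds_induced, tendsto_comap_iff, tendsto_pi_nhds]
    exact fun j => tendsto_const_nhds.congr' ((hγ j).mono fun n hn => hn.symm)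

lemma close {X : Type} [MetricSpace X] (hD : Four S D) (f : GB S → X) (hc : Continuous f)
    (hi : Function.Injective f) (m : ℕ) : ∃ η > 0, ∀ α β : Ray S, α.1 0 = 1 → β.1 0 = 1 →
      dist (f (Quot.mk _ α)) (f (Quot.mk _ β)) < η → wd S (α.1 m) (β.1 m) ≤ 2 * D := by
  by_contra hn
  push Not at hn
  choose α β h1 h2 h3 h4 using fun n : ℕ => hn (1 / (n + 1)) (by positivity)
  obtain ⟨α', a1, a2⟩ := rlim hS hF α h1
  obtain ⟨β', b1, b2⟩ := rlim hS hF β h2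
  have hq : Continuous fun γ : Ray S => f (Quot.mk _ γ) := hc.comp continuous_coinduced_rng
  have e1 := ((hq.tendsto _).comp a2).dist ((hq.tendsto _).comp b2)
  have e2 : dist (f (Quot.mk _ α')) (f (Quot.mk _ β')) ≤ 0 :=
    le_of_tendsto_of_tendsto e1
      (tendsto_one_div_add_atTop_nhds_zero_nat.mono_left Nat.hyperfilter_le_atTop)
      (Eventually.of_forall fun n => (h3 n).le)
  obtain ⟨C, hC⟩ := (mk_eq hS).1 (hi (dist_le_zero.1 e2))
  obtain ⟨n, c1, c2, c3, c4⟩ := ((a1 0).and ((b1 0).and ((a1 m).and (b1 m)))).exists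
  have := thin_ray hD α' β' (by rw [← c1, ← c2, h1, h2]) m C ((hC _).trans (by omega))
  have := h4 n
  rw [c3, c4] at this
  omega

end Pool.Agent.H.MP_462f25_al
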