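import Pool.Agent.H.MP_462f25_al.A

set_option autoImplicit false

namespace Pool.Agent.H.MP_462f25_al

open MP_1d7d98_al Filter

variable {G : Type} [Group G] {S : Set G} {X : Type} [MetricSpace X] [MulAction G X]

def Conv (G X : Type) [Group G] [MetricSpace X] [MulAction G X] : Prop :=
  ∀ γ : ℕ → G, Function.Injective γ → ∃ φ : ℕ → ℕ, StrictMono φ ∧ ∃ a b : X, ∀ K, IsCompact K →
    b ∉ K → ∀ ε > 0, ∀ᶠ n in atTop, ∀ y ∈ K, dist a (γ (φ n) • y) < ε

lemma twopt (hS : Subgroup.closure S = ⊤) [Infinite G] [CompactSpace X] (hc : Conv G X)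
    (L : Set X) (hL : ∀ g : G, ∀ y ∈ L, g • y ∈ L) (p0 q0 : X) (h2 : L = {p0, q0}) (hne : p0 ≠ q0)
    (η δ : ℝ) (hsep : η ≤ dist p0 q0) (hδ : δ ≤ η / 2) (h0 : 0 < δ)
    (hu : ∀ s, St S 1 s → ∀ y z : X, dist y z < δ → dist (s • y) (s • z) < η / 2)
    (x : X) (hx : x ∉ L) (hn : ∀ g : G, ∃ y ∈ L, dist (g • x) y < δ) : False := by
  have sep : ∀ y ∈ L, ∀ z ∈ L, dist y z < η → y = z := by
    rw [h2]
    rintro y (rfl | rfl) z (rfl | rfl) h
    · rfl
    · linarith
    · rw [dist_comm] at h; linarith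
    · rfl
  obtain ⟨p, hp, hxp⟩ := hn 1
  obtain ⟨q, hq, hpq, hL2⟩ : ∃ q ∈ L, p ≠ q ∧ ∀ y ∈ L, y = p ∨ y = q := by
    rw [h2] at hp ⊢
    rcases hp with rfl | rfl
    · exact ⟨q0, by simp, hne, fun y hy => hy⟩
    · exact ⟨p0, by simp, hne.symm, fun y hy => Or.symm hy⟩
  have all : ∀ g : G, dist (g • x) (g • p) < δ := by
    intro g
    have step : ∀ s g : G, St S 1 s → dist (g • x) (g • p) < δ →
        dist ((s * g) • x) ((s * g) • p) < δ := by
      intro s g hs h
      obtain ⟨y, hy, h1⟩ := hn (s * g)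
      have h3 := hu s hs _ _ h
      rw [← mul_smul, ← mul_smul] at h3
      rwa [sep _ (hL _ _ hp) y hy (by
        have := dist_triangle_left ((s * g) • p) y ((s * g) • x)
        linarith)]
    have hg : g ∈ Subgroup.closure S := by rw [hS]; trivial
    induction hg using Subgroup.closure_induction_left with
    | one => simpa using hxp
    | mul_left s hs g _ ih => exact step s g (Or.inl (by simpa using hs)) ih
    | inv_mul_cancel s hs g _ ih => exact step _ g (Or.inr (by simpa using hs)) ih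
  have key : ∀ γ : ℕ → G, Function.Injective γ → (∀ n, γ n • p = p) → ∃ φ : ℕ → ℕ, StrictMono φ ∧
      ∀ K, IsCompact K → q ∉ K → ∀ ε > 0, ∀ᶠ n in atTop, ∀ y ∈ K, dist p (γ (φ n) • y) < ε := by
    intro γ h1 h3
    obtain ⟨φ, h4, a, b, h5⟩ := hc γ h1
    have hb : b = q := by
      by_contra hb
      by_cases hb' : b = p
      · obtain ⟨n, h⟩ := (h5 {x, q} ((Set.toFinite _).isCompact) (by
          rintro (h | h)
          · exact hx (h ▸ hb' ▸ hp)
          · exact hb h) (η / 4) (by linarith)).exists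
        have e1 := h x (by simp)
        have e2 := h q (by simp)
        have e3 := all (γ (φ n))
        refine hpq (MulAction.injective (γ (φ n)) (sep _ (hL _ _ hp) _ (hL _ _ hq) ?_))
        have := dist_triangle_left (γ (φ n) • p) (γ (φ n) • q) (γ (φ n) • x)
        have := dist_triangle_left (γ (φ n) • x) (γ (φ n) • q) a
        linarith
      · obtain ⟨n, h⟩ := (h5 {p, q} ((Set.toFinite _).isCompact) (by
          rintro (h | h)
          · exact hb' h
          · exact hb h) (η / 4) (by linarith)).exists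
        have e1 := h p (by simp)
        have e2 := h q (by simp)
        refine hpq (MulAction.injective (γ (φ n)) (sep _ (hL _ _ hp) _ (hL _ _ hq) ?_))
        have := dist_triangle_left (γ (φ n) • p) (γ (φ n) • q) a
        linarith
    subst hb
    have ha : a = p := eq_of_forall_dist_le fun ε hε => by
      obtain ⟨n, h⟩ := (h5 {p} isCompact_singleton (fun h => hpq h.symm) ε hε).exists
      simpa [h3] using (h p rfl).le
    exact ⟨φ, h4, ha ▸ h5⟩
  have inf : {g : G | g • p = p}.Infinite := by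
    intro h
    by_cases h1 : ∃ g : G, g • p = q
    · obtain ⟨g0, hg0⟩ := h1
      refine Set.infinite_univ ((h.union (h.image fun g => g0 * g)).subset fun g _ => ?_)
      rcases hL2 _ (hL g p hp) with h3 | h3
      · exact Or.inl h3
      · exact Or.inr ⟨g0⁻¹ * g, by
          show (g0⁻¹ * g) • p = p
          rw [mul_smul, h3, ← hg0, inv_smul_smul], by simp⟩
    · exact Set.infinite_univ (h.subset fun g _ =>
        (hL2 _ (hL g p hp)).resolve_right fun h => h1 ⟨g, h⟩)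
  let γ := inf.natEmbedding
  have γi : Function.Injective fun n => (γ n).1 := Subtype.val_injective.comp γ.injective
  obtain ⟨φ, h3, h4⟩ := key _ γi fun n => (γ n).2
  obtain ⟨ψ, h5, h6⟩ := key (fun n => (γ (φ n)).1⁻¹) (inv_injective.comp (γi.comp h3.injective))
    fun n => inv_smul_eq_iff.2 (γ _).2.symm
  have hxp' : 0 < dist p x := dist_pos.2 fun h => hx (h ▸ hp)
  have hpq' : 0 < dist p q := dist_pos.2 hpq
  set ε := min (dist p x) (dist p q) / 2 with hε
  have e0 : 0 < ε := by positivity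
  have e1 : ε < dist p x := by have := min_le_left (dist p x) (dist p q); linarith
  have e2 : ε < dist p q := by have := min_le_right (dist p x) (dist p q); linarith
  obtain ⟨n, h7, h8⟩ := ((h5.tendsto_atTop.eventually (h4 {x} isCompact_singleton
    (fun h => hx (h ▸ hq)) ε e0)).and (h6 (Metric.closedBall p ε) Metric.isClosed_closedBall.isCompact
      (by rw [Metric.mem_closedBall']; linarith) ε e0)).exists
  have := h8 _ (Metric.mem_closedBall'.2 (h7 x rfl).le)
  rw [inv_smul_smul] at this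
  linarith

theorem main (hS : Subgroup.closure S = ⊤) (hF : S.Finite) (hH : Hyp S) [CompactSpace X]
    [ContinuousConstSMul G X] (hc : Conv G X) (f : GB S → X) (hf : Continuous f)
    (hi : Function.Injective f) (hL : IsCompact (Set.range f))
    (he : ∀ (g : G) (β γ : Ray S), (∀ n, γ.1 n = g * β.1 n) →
      f (Quot.mk _ γ) = g • f (Quot.mk _ β)) :
    ∃ K : Set X, IsCompact K ∧ K ⊆ (Set.range f)ᶜ ∧ ∀ x ∉ Set.range f, ∃ g : G, g • x ∈ K := by
  obtain ⟨D, hD⟩ := hH
  rcases isEmpty_or_nonempty (Ray S) with h0 | ⟨⟨ρ0⟩⟩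
  · refine ⟨Set.univ, isCompact_univ, ?_, fun x _ => ⟨1, trivial⟩⟩
    rintro _ - ⟨⟨γ⟩, -⟩
    exact h0.elim γ
  set L := Set.range f with hLd
  let F : Ray S → X := fun γ => f (Quot.mk _ γ)
  have Ft : ∀ g γ m, F (tr hS g γ m) = g • F γ := fun g γ m => by
    rw [← he g γ (tr hS g γ 0) fun n => by simp [tr]]
    exact congrArg f ((mk_eq hS).2 (tr_asy hS g γ m)).symm
  have F1 : ∀ y ∈ L, ∃ α : Ray S, α.1 0 = 1 ∧ F α = y := by
    rintro _ ⟨⟨β⟩, rfl⟩
    obtain ⟨α, h1, h2⟩ := based hS hF hD β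
    exact ⟨α, h1, congrArg f ((mk_eq hS).2 h2)⟩
  have inv : ∀ g : G, ∀ y ∈ L, g • y ∈ L := by
    rintro g _ ⟨⟨β⟩, rfl⟩
    exact ⟨_, Ft g β 0⟩
  set m := 3 * D + 1 with hm
  obtain ⟨η, η0, hη⟩ := close hS hF hD f hf hi m
  obtain ⟨δ, δ0, δ1, hδ⟩ : ∃ δ > 0, δ ≤ η / 2 ∧ ∀ g : G, wd S 1 g ≤ m → ∀ y z : X, dist y z < δ →
      dist (g • y) (g • z) < η / 2 := by
    have : ∀ᶠ δ in nhdsWithin (0 : ℝ) (Set.Ioi 0), ∀ g ∈ {g | wd S 1 g ≤ m}, ∀ y z : X,
        dist y z < δ → dist (g • y) (g • z) < η / 2 := by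
      refine ((ball hS hF m).eventually_all ..).2 fun g _ => ?_
      obtain ⟨δ, h1, h2⟩ := Metric.uniformContinuous_iff.1
        (CompactSpace.uniformContinuous_of_continuous (continuous_const_smul (T := X) g))
        (η / 2) (by linarith)
      exact mem_of_superset (Ioo_mem_nhdsGT h1) fun ε hε y z h => h2 (h.trans hε.2)
    obtain ⟨δ, h1, h2⟩ := (this.and (Ioo_mem_nhdsGT (show 0 < η / 2 by linarith))).exists
    exact ⟨δ, h2.1, h2.2.le, h1⟩
  refine ⟨{y | ∀ z ∈ L, δ ≤ dist y z}, IsClosed.isCompact ?_, fun y hy h => ?_, fun x hx => ?_⟩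
  · simp only [Set.ofPred_forall]
    exact isClosed_iInter fun z => isClosed_iInter fun _ =>
      isClosed_le continuous_const (by fun_prop)
  · have := hy y h
    rw [dist_self] at this; linarith
  by_contra hn
  have hn' : ∀ g : G, ∃ y ∈ L, dist (g • x) y < δ := by simpa using hn
  have hn2 : ∀ v : G, ∃ α : Ray S, α.1 0 = 1 ∧ dist (v⁻¹ • x) (F α) < δ := fun v => by
    obtain ⟨y, h1, h2⟩ := hn' v⁻¹
    obtain ⟨α, h3, rfl⟩ := F1 y h1
    exact ⟨α, h3, h2⟩
  choose ρ ρ1 ρ2 using hn2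
  let v : ℕ → G := fun k => (fun v => v * (ρ v).1 m)^[k] 1
  have v1 : ∀ k, v (k + 1) = v k * (ρ (v k)).1 m := fun k => Function.iterate_succ_apply' _ _ _
  have r1 : ∀ (α : Ray S) n, α.1 0 = 1 → wd S 1 (α.1 n) = n := fun α n h => by
    rw [← h]; exact α.le (Nat.zero_le n)
  have v2 : ∀ k, wd S (v k) (v (k + 1)) = m := fun k => by
    have := wd_mul hS (v k) 1 ((ρ (v k)).1 m)
    rw [mul_one] at this
    rw [v1, this, r1 _ _ (ρ1 _)]
  have v3 : ∀ k, 2 * m ≤ wd S (v k) (v (k + 2)) + 2 * D := fun k => by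
    set g := (ρ (v k)).1 m with hg
    have e1 := hδ g⁻¹ (by
      rw [← wd_mul hS g, mul_one, mul_inv_cancel, wd_comm, r1 _ _ (ρ1 _)]) _ _ (ρ2 (v k))
    rw [← mul_smul, ← mul_inv_rev, ← v1, ← Ft _ _ m] at e1
    have e2 := ρ2 (v (k + 1))
    have e3 := hη (tr hS g⁻¹ (ρ (v k)) m) (ρ (v (k + 1))) (by simp [tr, hg]) (ρ1 _) (by
      have := dist_triangle_left (F (tr hS g⁻¹ (ρ (v k)) m)) (F (ρ (v (k + 1)))) ((v (k + 1))⁻¹ • x)
      show dist (F _) (F _) < η
      linarith)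
    rw [← wd_mul hS (v (k + 1)), ← v1 (k + 1)] at e3
    have e4 : v (k + 1) * (tr hS g⁻¹ (ρ (v k)) m).1 m = v k * (ρ (v k)).1 (m + m) := by
      rw [v1]; simp [tr, hg, mul_assoc]
    have e5 := wd_mul hS (v k) 1 ((ρ (v k)).1 (m + m))
    rw [mul_one, r1 _ _ (ρ1 _)] at e5
    have e6 := wd_tri hS (v k) (v (k + 2)) (v k * (ρ (v k)).1 (m + m))
    rw [e4, wd_comm] at e3
    change wd S (v (k + 2)) _ ≤ _ at e3
    omega
  have v4 := chain hD v m (by omega) v2 v3
  have v0 : v 0 = 1 := rfl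
  rw [v0] at v4
  have v5 : StrictMono fun k => wd S 1 (v k) := strictMono_nat_of_lt_succ fun k => by
    have := v4 k; omega
  have v6 : Function.Injective fun k => (v k)⁻¹ := fun k l h =>
    v5.injective (by simp only [inv_injective h])
  obtain ⟨φ, h1, a, b, h2⟩ := hc _ v6
  obtain ⟨σ, τ, s1, s2, s3⟩ := two hS hF ρ0
  have s4 : η ≤ dist (F σ) (F τ) := not_lt.1 fun h => by
    have := hη σ τ s1 s2 h
    rw [s3] at this; omega
  have hb : b ∈ L := by
    by_contra hb
    obtain ⟨n, h⟩ := (h2 L hL hb (η / 2) (by linarith)).exists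
    have e1 := h _ (inv (v (φ n)) (F σ) ⟨_, rfl⟩)
    have e2 := h _ (inv (v (φ n)) (F τ) ⟨_, rfl⟩)
    rw [inv_smul_smul] at e1 e2
    have := dist_triangle_left (F σ) (F τ) a
    linarith
  have pass' : ∀ μ : Ray S, μ.1 0 = 1 → F μ ≠ b → ∀ᶠ n in atTop,
      wd S (μ.1 (wd S 1 (v (φ n)))) (v (φ n)) ≤ 7 * D := by
    intro μ m1 m2
    refine (h2 {x, F μ} (Set.toFinite _).isCompact ?_ (η / 4) (by linarith)).mono fun n h => ?_
    · rintro (h | h)
      · exact hx (h ▸ hb)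
      · exact m2 h.symm
    set w := v (φ n) with hw
    obtain ⟨α, a1, a2⟩ := F1 _ (inv w⁻¹ (F μ) ⟨_, rfl⟩)
    have e1 := h x (by simp)
    have e2 := h (F μ) (by simp)
    have e3 := ρ2 w
    have e4 := hη α (ρ w) a1 (ρ1 _) (by
      have := dist_triangle_left (F α) (w⁻¹ • x) a
      have := dist_triangle (F α) (w⁻¹ • x) (F (ρ w))
      rw [← a2] at e2
      show dist (F _) (F _) < η
      linarith)
    have t0 : (tr hS w α 0).1 0 = w := by simp [tr, a1]
    have := pass hS hD μ (tr hS w α 0) ((mk_eq hS).1 (hi (by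
      show F _ = F _
      rw [Ft, a2, smul_inv_smul]))) (v (φ n + 1)) m (by omega)
      (by rw [v1]; simp only [tr, zero_add]; rwa [wd_mul hS]) (by rw [t0, m1]; exact v4 _)
    rwa [t0, m1] at this
  have uniq : ∀ y ∈ L, ∀ z ∈ L, y ≠ b → z ≠ b → y = z := by
    intro y hy z hz h3 h4
    obtain ⟨μ, m1, rfl⟩ := F1 y hy
    obtain ⟨ν, n1, rfl⟩ := F1 z hz
    refine congrArg f ((mk_eq hS).2 ⟨2 * D, fun j => ?_⟩)
    obtain ⟨n, c1, c2, c3⟩ := ((pass' μ m1 h3).and ((pass' ν n1 h4).and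
      (((v5.comp h1).tendsto_atTop).eventually (eventually_ge_atTop (j + 7 * D))))).exists
    obtain ⟨s, hs⟩ := Nat.exists_eq_add_of_le (show j ≤ wd S 1 (v (φ n)) from le_of_add_le_left c3)
    have := wd_tri hS (μ.1 (j + s)) (v (φ n)) (ν.1 (j + s))
    simp only [Function.comp] at c3
    rw [hs] at c1 c2 c3
    rw [wd_comm] at c2
    exact thin_ray hD μ ν (m1.trans n1.symm) j s (by omega)
  have hne : F σ ≠ F τ := fun h => by rw [h, dist_self] at s4; linarith
  haveI : Infinite G := Infinite.of_injective _ v6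
  refine twopt hS hc L inv (F σ) (F τ) ?_ hne η δ s4 δ1 δ0
    (fun s hs => hδ s ((wd_st hs).trans (by omega))) x hx hn'
  refine Set.Subset.antisymm (fun y hy => ?_) (by rintro _ (rfl | rfl) <;> exact ⟨_, rfl⟩)
  by_cases c1 : F σ = b
  · by_cases c2 : y = b
    · exact Or.inl (c2.trans c1.symm)
    · exact Or.inr (uniq y hy _ ⟨_, rfl⟩ c2 fun h => hne (c1.trans h.symm))
  · by_cases c2 : y = b
    · right
      by_contra c3
      exact hne (uniq _ ⟨_, rfl⟩ _ ⟨_, rfl⟩ c1 fun h => c3 (c2.trans h.symm))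
    · exact Or.inl (uniq y hy _ ⟨_, rfl⟩ c2 c1)

end Pool.Agent.H.MP_462f25_al
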