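import Pool.Agent.H.MP_1d7d98_al.D

set_option autoImplicit false

namespace Pool.Agent.H.MP_462f25_al

open MP_1d7d98_al

variable {G : Type} [Group G]

def Hyp (S : Set G) : Prop :=
  ∃ D : ℕ, ∀ x y z w : G,
    wd S x y + wd S z w ≤ max (wd S x z + wd S y w) (wd S x w + wd S y z) + D

def Ray (S : Set G) : Type := {γ : ℕ → G // ∀ i j, wd S (γ i) (γ j) = Nat.dist i j}

instance (S : Set G) : TopologicalSpace (Ray S) :=
  .induced Subtype.val (@Pi.topologicalSpace ℕ (fun _ => G) fun _ => ⊥)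

def GB (S : Set G) : Type := Quot fun β γ : Ray S => ∃ C : ℕ, ∀ n, wd S (β.1 n) (γ.1 n) ≤ C

instance (S : Set G) : TopologicalSpace (GB S) :=
  .coinduced (Quot.mk _ : Ray S → GB S) inferInstance

end Pool.Agent.H.MP_462f25_al
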